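import Pool.Agent.KS6_22.TS.Core

set_option autoImplicit false

namespace Pool.Agent.KS6_22.TS

open Matrix Module TensorProduct

/-- generic perturbations do not decrease the rank -/
lemma generic {K V : Type} [Field K] [AddCommGroup V] [Module K V] [FiniteDimensional K V]
    (L : Type) [Field L] [Algebra K L] [Infinite L] (T δ : V →ₗ[K] V) :
    ∃ u : L, u ≠ 0 ∧
      finrank L (LinearMap.ker (T.baseChange L + u • δ.baseChange L)) ≤
        finrank K (LinearMap.ker T) := by
  classical
  set ρ := finrank K (LinearMap.range T) with hρ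
  -- `a : K^ρ → V` and `b : V → K^ρ` with `b T a = 1`
  let e : LinearMap.range T ≃ₗ[K] (Fin ρ → K) := (finBasis K (LinearMap.range T)).equivFun
  obtain ⟨s, hs⟩ := (LinearMap.rangeRestrict T).exists_rightInverse_of_surjective
    (LinearMap.range_rangeRestrict T)
  obtain ⟨p, hp⟩ := (LinearMap.range T).exists_isCompl
  let a : (Fin ρ → K) →ₗ[K] V := s ∘ₗ (e.symm : (Fin ρ → K) →ₗ[K] _)
  obtain ⟨q, hq⟩ := (LinearMap.range T).subtype.exists_leftInverse_of_injective
    (Submodule.ker_subtype _)
  let b : V →ₗ[K] (Fin ρ → K) := (e : _ →ₗ[K] (Fin ρ → K)) ∘ₗ q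
  have hab : b ∘ₗ T ∘ₗ a = LinearMap.id := by
    apply LinearMap.ext
    intro x
    have h1 : T (s (e.symm x)) = (e.symm x : LinearMap.range T) := by
      have := LinearMap.congr_fun hs (e.symm x)
      exact congrArg Subtype.val this
    have h2 : q (e.symm x : LinearMap.range T) = e.symm x := by
      have := LinearMap.congr_fun hq (e.symm x)
      exact this
    change e (q (T (s (e.symm x)))) = x
    rw [h1, h2, LinearEquiv.apply_symm_apply]
  let B : (L ⊗[K] (Fin ρ → K)) →ₗ[L] (L ⊗[K] (Fin ρ → K)) :=
    (b.baseChange L) ∘ₗ (δ.baseChange L) ∘ₗ (a.baseChange L)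
  have hfin : {c : L | Module.End.HasEigenvalue B c}.Finite :=
    Module.End.finite_hasEigenvalue B
  obtain ⟨c, hc⟩ := ((hfin.insert 0).infinite_compl).nonempty
  simp only [Set.mem_compl_iff, Set.mem_insert_iff, Set.mem_ofPred_eq, not_or] at hc
  obtain ⟨hc0, hc1⟩ := hc
  refine ⟨-c⁻¹, by simpa using hc0, ?_⟩
  set F := T.baseChange L + (-c⁻¹ : L) • δ.baseChange L with hF
  have hcomp : (b.baseChange L) ∘ₗ F ∘ₗ (a.baseChange L) = LinearMap.id + (-c⁻¹ : L) • B := by
    have h1 : (b.baseChange L) ∘ₗ (T.baseChange L) ∘ₗ (a.baseChange L) = LinearMap.id := by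
      rw [← LinearMap.baseChange_comp, ← LinearMap.baseChange_comp, hab, LinearMap.baseChange_id]
    rw [hF, LinearMap.add_comp, LinearMap.comp_add, h1]
    congr 1
    rw [LinearMap.smul_comp, LinearMap.comp_smul]
  have hinj : Function.Injective ((b.baseChange L) ∘ₗ F ∘ₗ (a.baseChange L)) := by
    rw [hcomp, injective_iff_map_eq_zero]
    intro x hx
    by_contra hx0
    apply hc1
    have h1 : B x = c • x := by
      simp only [LinearMap.add_apply, LinearMap.id_apply, LinearMap.smul_apply] at hx
      have h2 : c • (x + (-c⁻¹ : L) • B x) = 0 := by rw [hx, smul_zero]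
      rw [smul_add, smul_smul] at h2
      have h3 : c * -c⁻¹ = -1 := by field_simp
      rw [h3, neg_one_smul, ← sub_eq_add_neg, sub_eq_zero] at h2
      exact h2.symm
    exact Module.End.hasEigenvalue_of_hasEigenvector ⟨Module.End.mem_eigenspace_iff.mpr h1, hx0⟩
  have hrank : ρ ≤ finrank L (LinearMap.range F) := by
    have h1 : Function.Injective (F ∘ₗ (a.baseChange L)) := by
      intro x y hxy
      exact hinj (by simp only [LinearMap.comp_apply] at hxy ⊢; rw [hxy])
    have h2 := LinearMap.finrank_le_finrank_of_injective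
      (f := LinearMap.codRestrict (LinearMap.range F) (F ∘ₗ (a.baseChange L))
        (fun x => ⟨_, rfl⟩)) (fun x y hxy => h1 (congrArg Subtype.val hxy))
    rw [Module.finrank_baseChange, Module.finrank_fintype_fun_eq_card, Fintype.card_fin] at h2
    exact h2
  have h3 := LinearMap.finrank_range_add_finrank_ker F
  have h4 := LinearMap.finrank_range_add_finrank_ker T
  rw [Module.finrank_baseChange] at h3
  omega

variable {K R : Type} [Field K] [CommRing R] [Algebra K R] {n : ℕ}

/-- matrices commute with base change -/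
noncomputable def matBC (K L R : Type) [Field K] [Field L] [Algebra K L] [CommRing R] [Algebra K R]
    (n : ℕ) :
    L ⊗[K] (Matrix (Fin n) (Fin n) R) ≃ₗ[L] Matrix (Fin n) (Fin n) (L ⊗[K] R) :=
  (TensorProduct.piRight K L L (fun _ : Fin n => Fin n → R)) ≪≫ₗ
    LinearEquiv.piCongrRight (fun _ => TensorProduct.piRight K L L (fun _ : Fin n => R))

lemma matBC_tmul (L : Type) [Field L] [Algebra K L] (l : L) (X : Matrix (Fin n) (Fin n) R)
    (i j : Fin n) : matBC K L R n (l ⊗ₜ[K] X) i j = l ⊗ₜ[K] (X i j) := rfl

lemma opT_baseChange (L : Type) [Field L] [Algebra K L] (D : Matrix (Fin n) (Fin n) R)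
    (Z : L ⊗[K] (Matrix (Fin n) (Fin n) R)) :
    matBC K L R n ((opT K D).baseChange L Z) =
      opT L (D.map (Algebra.TensorProduct.includeRight : R →ₐ[K] L ⊗[K] R)) (matBC K L R n Z) := by
  induction Z using TensorProduct.induction_on with
  | zero => simp only [map_zero]
  | add x y hx hy => simp only [map_add, hx, hy]
  | tmul l X =>
    ext i j
    rw [LinearMap.baseChange_tmul, matBC_tmul]
    simp only [opT_apply, Matrix.add_apply, Matrix.mul_apply, transpose_apply, Matrix.map_apply,
      matBC_tmul, Algebra.TensorProduct.includeRight_apply, Algebra.TensorProduct.tmul_mul_tmul,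
      one_mul, mul_one, TensorProduct.tmul_add, TensorProduct.tmul_sum]

lemma opS_baseChange (L : Type) [Field L] [Algebra K L]
    (Z : L ⊗[K] (Matrix (Fin n) (Fin n) R)) :
    matBC K L R n ((opS K R n).baseChange L Z) =
      opS L (L ⊗[K] R) n (matBC K L R n Z) := by
  induction Z using TensorProduct.induction_on with
  | zero => simp only [map_zero]
  | add x y hx hy => simp only [map_add, hx, hy]
  | tmul l X =>
    ext i j
    rw [LinearMap.baseChange_tmul, matBC_tmul]
    simp only [opS_apply, Matrix.add_apply, transpose_apply, matBC_tmul, TensorProduct.tmul_add]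

/-- the kernel of the tensor square is at least as large as a Tate kernel over an extension -/
lemma exists_le_ker_opT [FiniteDimensional K R] (L : Type) [Field L] [Algebra K L] [Infinite L]
    (D : Matrix (Fin n) (Fin n) R) :
    ∃ v : L, v ≠ 0 ∧ finrank L (LinearMap.ker (opL L (v •
      (D.map (Algebra.TensorProduct.includeRight : R →ₐ[K] L ⊗[K] R))))) ≤
        finrank K (LinearMap.ker (opT K D)) := by
  obtain ⟨u, hu, h⟩ := generic L (opT K D) (opS K R n)
  refine ⟨u⁻¹, inv_ne_zero hu, le_trans (le_of_eq ?_) h⟩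
  set D' := D.map (Algebra.TensorProduct.includeRight : R →ₐ[K] L ⊗[K] R)
  have hker : LinearMap.ker ((opT K D).baseChange L + u • (opS K R n).baseChange L) =
      (LinearMap.ker (opL L (u⁻¹ • D'))).comap (matBC K L R n : _ →ₗ[L] _) := by
    ext Z
    rw [Submodule.mem_comap, LinearMap.mem_ker, LinearMap.mem_ker]
    have h1 : matBC K L R n (((opT K D).baseChange L + u • (opS K R n).baseChange L) Z) =
        u • opL L (u⁻¹ • D') (matBC K L R n Z) := by
      rw [LinearMap.add_apply, LinearMap.smul_apply, map_add, map_smul, opT_baseChange,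
        opS_baseChange]
      simp only [opT_apply, opS_apply, opL_apply, transpose_smul, Matrix.smul_mul, Matrix.mul_smul,
        smul_add, smul_smul, mul_inv_cancel₀ hu, one_smul]
      abel
    constructor
    · intro h0
      rw [h0, map_zero] at h1
      exact (smul_eq_zero_iff_right hu).mp h1.symm
    · intro h0
      have h0' : opL L (u⁻¹ • D') (matBC K L R n Z) = 0 := h0
      rw [h0', smul_zero] at h1
      exact (LinearEquiv.map_eq_zero_iff _).mp h1
  rw [hker]
  exact (LinearEquiv.finrank_eq (LinearEquiv.submoduleMap (matBC K L R n).symm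
    (LinearMap.ker (opL L (u⁻¹ • D'))) |>.trans (LinearEquiv.ofEq _ _ (by
      ext X; simp [Submodule.mem_comap]
      ))))

end Pool.Agent.KS6_22.TS
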