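import Mathlib

set_option autoImplicit false

namespace Pool.Agent.KS6_22.TS

open Matrix Module

variable {k R : Type} [Field k] [CommRing R] [Algebra k R] {n : ℕ}

/-- the differential of the tensor square on matrices: `X ↦ D X + X Dᵀ` -/
noncomputable def opT (k : Type) {R : Type} [Field k] [CommRing R] [Algebra k R] {n : ℕ}
    (D : Matrix (Fin n) (Fin n) R) :
    Matrix (Fin n) (Fin n) R →ₗ[k] Matrix (Fin n) (Fin n) R where
  toFun X := D * X + X * Dᵀ
  map_add' X Y := by rw [mul_add, add_mul]; abel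
  map_smul' c X := by simp [mul_smul_comm, smul_mul_assoc, smul_add]

/-- the operator `X ↦ X + Xᵀ` -/
noncomputable def opS (k : Type) (R : Type) [Field k] [CommRing R] [Algebra k R] (n : ℕ) :
    Matrix (Fin n) (Fin n) R →ₗ[k] Matrix (Fin n) (Fin n) R where
  toFun X := X + Xᵀ
  map_add' X Y := by rw [transpose_add]; abel
  map_smul' c X := by simp [smul_add, transpose_smul]

/-- the Tate differential `X ↦ D X + X Dᵀ + X + Xᵀ` -/
noncomputable def opL (k : Type) {R : Type} [Field k] [CommRing R] [Algebra k R] {n : ℕ}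
    (D : Matrix (Fin n) (Fin n) R) :
    Matrix (Fin n) (Fin n) R →ₗ[k] Matrix (Fin n) (Fin n) R where
  toFun X := D * X + X * Dᵀ + X + Xᵀ
  map_add' X Y := by rw [mul_add, add_mul, transpose_add]; abel
  map_smul' c X := by
    simp [mul_smul_comm, smul_mul_assoc, smul_add, transpose_smul]

@[simp] lemma opT_apply (D X : Matrix (Fin n) (Fin n) R) :
    opT k D X = D * X + X * Dᵀ := rfl

@[simp] lemma opS_apply (X : Matrix (Fin n) (Fin n) R) :
    opS k R n X = X + Xᵀ := rfl

@[simp] lemma opL_apply (D X : Matrix (Fin n) (Fin n) R) :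
    opL k D X = D * X + X * Dᵀ + X + Xᵀ := rfl

/-- the involution `X ↦ X + Xᵀ gᵀ` -/
noncomputable def opU (k : Type) {R : Type} [Field k] [CommRing R] [Algebra k R] {n : ℕ}
    (g : Matrix (Fin n) (Fin n) R) :
    Matrix (Fin n) (Fin n) R →ₗ[k] Matrix (Fin n) (Fin n) R where
  toFun X := X + Xᵀ * gᵀ
  map_add' X Y := by rw [transpose_add, add_mul]; abel
  map_smul' c X := by
    simp [smul_mul_assoc, smul_add, transpose_smul]

@[simp] lemma opU_apply (g X : Matrix (Fin n) (Fin n) R) :
    opU k g X = X + Xᵀ * gᵀ := rfl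

lemma add_self_mat (h2 : (2 : R) = 0) (M : Matrix (Fin n) (Fin n) R) : M + M = 0 := by
  ext i j
  have : M i j + M i j = 2 * M i j := by ring
  simp [this, h2]

lemma gXg {g : Matrix (Fin n) (Fin n) R} (hg : ∀ a b c d, g a b * g c d = 0)
    (X : Matrix (Fin n) (Fin n) R) : g * (X * gᵀ) = 0 := by
  ext a b
  simp only [Matrix.mul_apply, Matrix.zero_apply, transpose_apply]
  refine Finset.sum_eq_zero fun c _ => ?_
  rw [Finset.mul_sum]
  refine Finset.sum_eq_zero fun d _ => ?_
  have := hg a c b d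
  linear_combination (X c d) * this

lemma gg {g : Matrix (Fin n) (Fin n) R} (hg : ∀ a b c d, g a b * g c d = 0) : g * g = 0 := by
  ext a b
  simp only [Matrix.mul_apply, Matrix.zero_apply]
  exact Finset.sum_eq_zero fun c _ => hg a c c b

lemma opU_opU (h2 : (2 : R) = 0) {g : Matrix (Fin n) (Fin n) R}
    (hg : ∀ a b c d, g a b * g c d = 0) (X : Matrix (Fin n) (Fin n) R) :
    opU k g (opU k g X) = X := by
  simp only [opU_apply, transpose_add, transpose_mul, transpose_transpose,
    add_mul, Matrix.mul_assoc, gXg hg, add_zero]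
  rw [add_assoc, add_self_mat h2, add_zero]

lemma opL_opU (h2 : (2 : R) = 0) {g : Matrix (Fin n) (Fin n) R}
    (hg : ∀ a b c d, g a b * g c d = 0) (D X : Matrix (Fin n) (Fin n) R)
    (hf : g * D = D * g) :
    opL k (D + g) (opU k g X) = opU k g (opL k D X) := by
  have hf' : Dᵀ * gᵀ = gᵀ * Dᵀ := by rw [← transpose_mul, ← transpose_mul, hf]
  have hgg : gᵀ * gᵀ = 0 := by rw [← transpose_mul, gg hg, transpose_zero]
  simp only [opU_apply, opL_apply, transpose_add, transpose_mul,
    transpose_transpose, add_mul, mul_add,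
    add_zero, Matrix.mul_assoc, hf', gXg hg, hgg, Matrix.mul_zero]
  have e : ∀ a b c : Matrix (Fin n) (Fin n) R, a = b + (c + c) → a = b := by
    intro a b c h; rw [h, add_self_mat h2 c, add_zero]
  refine e _ _ (g * X) ?_
  abel

/-- the kernels of `opL` for `D` and `D + g` have the same dimension -/
lemma finrank_ker_opL (h2 : (2 : R) = 0) {g : Matrix (Fin n) (Fin n) R}
    (hg : ∀ a b c d, g a b * g c d = 0) (D : Matrix (Fin n) (Fin n) R) (hf : g * D = D * g) :
    finrank k (LinearMap.ker (opL k (D + g))) = finrank k (LinearMap.ker (opL k D)) := by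
  let e : Matrix (Fin n) (Fin n) R ≃ₗ[k] Matrix (Fin n) (Fin n) R :=
    LinearEquiv.ofLinearMap (opU k g) (opU k g)
      (by ext1 X; simpa using opU_opU (k := k) h2 hg X)
      (by ext1 X; simpa using opU_opU (k := k) h2 hg X)
  have hcomp : (opL k (D + g)) ∘ₗ (e : _ →ₗ[k] _) = (e : _ →ₗ[k] _) ∘ₗ (opL k D) := by
    apply LinearMap.ext
    intro X
    exact opL_opU (k := k) h2 hg D X hf
  have hk : LinearMap.ker (opL k D) = (LinearMap.ker (opL k (D + g))).comap (e : _ →ₗ[k] _) := by
    ext X
    rw [Submodule.mem_comap, LinearMap.mem_ker, LinearMap.mem_ker]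
    have := LinearMap.congr_fun hcomp X
    simp only [LinearMap.comp_apply] at this
    rw [this]
    exact (LinearEquiv.map_eq_zero_iff e).symm
  rw [hk]
  exact (LinearEquiv.finrank_eq (LinearEquiv.submoduleMap e.symm
    (LinearMap.ker (opL k (D + g))) |>.trans (LinearEquiv.ofEq _ _ (by
      ext X; simp [Submodule.mem_comap]
      ))))

/-- one step: adding the derivative of `D` -/
lemma der_step (h2 : (2 : R) = 0) (θ : R →+ R) (hθ : ∀ a b, θ (a * b) = θ a * b + a * θ b)
    (hθ2 : ∀ a b, θ a * θ b = 0) (D : Matrix (Fin n) (Fin n) R) (hD : D * D = 0) :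
    (D.map θ * D = D * D.map θ) ∧ (D + D.map θ) * (D + D.map θ) = 0 := by
  have hsum : D.map θ * D + D * D.map θ = 0 := by
    ext a b
    have h0 : (∑ l, D a l * D l b) = 0 := by
      have := congrFun (congrFun hD a) b
      simpa [Matrix.mul_apply] using this
    have h1 := congrArg θ h0
    rw [map_sum, map_zero] at h1
    simp only [Matrix.add_apply, Matrix.mul_apply, Matrix.map_apply, Matrix.zero_apply]
    rw [← Finset.sum_add_distrib, ← h1]
    exact Finset.sum_congr rfl fun l _ => (hθ _ _).symm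
  have hc : D.map θ * D = D * D.map θ :=
    add_right_cancel (hsum.trans (add_self_mat h2 (D * D.map θ)).symm)
  refine ⟨hc, ?_⟩
  rw [add_mul, mul_add, mul_add, hD, hc, gg (g := D.map θ) (fun a b c d => hθ2 _ _), add_zero, zero_add]
  exact add_self_mat h2 _

/-- successive addition of the derivatives -/
def iter (l : List (R →+ R)) (a : R) : R := l.foldr (fun θ b => b + θ b) a

lemma iter_add (l : List (R →+ R)) (a b : R) : iter l (a + b) = iter l a + iter l b := by
  induction l with
  | nil => rfl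
  | cons θ l ih =>
    simp only [iter, List.foldr_cons] at ih ⊢
    rw [ih, map_add]
    abel

lemma chain (h2 : (2 : R) = 0) (l : List (R →+ R))
    (hθ : ∀ θ ∈ l, ∀ a b, θ (a * b) = θ a * b + a * θ b)
    (hθ2 : ∀ θ ∈ l, ∀ a b, θ a * θ b = 0)
    (D : Matrix (Fin n) (Fin n) R) (hD : D * D = 0) :
    (D.map (iter l)) * (D.map (iter l)) = 0 ∧
    ∀ (L S : Type) [Field L] [CommRing S] [Algebra L S] (f : R →+* S) (u : L),
      finrank L (LinearMap.ker (opL L (u • (D.map (iter l)).map f))) =
        finrank L (LinearMap.ker (opL L (u • D.map f))) := by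
  induction l with
  | nil =>
    have : D.map (iter ([] : List (R →+ R))) = D := by ext i j; rfl
    rw [this]
    exact ⟨hD, fun L S _ _ _ f u => rfl⟩
  | cons θ l ih =>
    obtain ⟨h1, h3⟩ := ih (fun θ' h => hθ θ' (List.mem_cons_of_mem _ h))
      (fun θ' h => hθ2 θ' (List.mem_cons_of_mem _ h))
    set D' := D.map (iter l) with hD'
    have hcons : D.map (iter (θ :: l)) = D' + D'.map θ := by
      ext i j
      rfl
    obtain ⟨h4, h5⟩ := der_step h2 θ (hθ θ List.mem_cons_self) (hθ2 θ List.mem_cons_self) D' h1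
    rw [hcons]
    refine ⟨h5, fun L S _ _ _ f u => ?_⟩
    rw [← h3 L S f u]
    have e : u • (D' + D'.map θ).map f = u • D'.map f + u • (D'.map θ).map f := by
      ext i j
      simp [smul_add]
    rw [e]
    refine finrank_ker_opL ?_ ?_ _ ?_
    · rw [← map_ofNat f 2, h2, map_zero]
    · intro a b c d
      simp only [Matrix.smul_apply, Matrix.map_apply, smul_mul_smul_comm, ← map_mul]
      rw [hθ2 θ List.mem_cons_self, map_zero, smul_zero]
    · have h6 : (D'.map θ).map f * D'.map f = D'.map f * (D'.map θ).map f := by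
        rw [← Matrix.map_mul, ← Matrix.map_mul, h4]
      rw [Matrix.smul_mul, Matrix.mul_smul, Matrix.smul_mul, Matrix.mul_smul, h6]

/-- `opL` squares to zero -/
lemma opL_opL (h2 : (2 : R) = 0) {E : Matrix (Fin n) (Fin n) R} (hE : E * E = 0)
    (X : Matrix (Fin n) (Fin n) R) : opL k E (opL k E X) = 0 := by
  have hE' : Eᵀ * Eᵀ = 0 := by rw [← transpose_mul, hE, transpose_zero]
  have hEX : ∀ Y : Matrix (Fin n) (Fin n) R, E * (E * Y) = 0 := fun Y => by
    rw [← Matrix.mul_assoc, hE, Matrix.zero_mul]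
  simp only [opL_apply, mul_add, add_mul, transpose_add, transpose_mul, transpose_transpose,
    Matrix.mul_assoc, hE', hEX, Matrix.mul_zero, add_zero, zero_add]
  have e : ∀ c : Matrix (Fin n) (Fin n) R, c + c = 0 := add_self_mat h2
  have : ∀ p q r s t w z : Matrix (Fin n) (Fin n) R, (p + q + r + (p + s + t) + (q + s + w + z) +
    (r + t + z + w) = 0) := by
    intro p q r s t w z
    have h := e (p + q + r + s + t + w + z)
    rw [← h]
    abel
  rw [← this (E * (X * Eᵀ)) (E * X) (E * Xᵀ) (X * Eᵀ) (Xᵀ * Eᵀ) X Xᵀ]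
  abel

/-- a lower bound for the kernel from representatives of the homology -/
lemma ker_lower (h2 : (2 : R) = 0) [FiniteDimensional k R] {E : Matrix (Fin n) (Fin n) R}
    (hE : E * E = 0) {m : ℕ} (h φ : Fin m → Fin n → R) (hh : ∀ i, E.mulVec (h i) = 0)
    (hφ : ∀ i, Matrix.vecMul (φ i) E = 0) (hφh : ∀ i j, φ i ⬝ᵥ h j = if i = j then 1 else 0) :
    finrank k (LinearMap.range (opL k E)) + m * finrank k R ≤
      finrank k (LinearMap.ker (opL k E)) := by
  have hadd : ∀ a : R, a + a = 0 := fun a => by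
    have : a + a = 2 * a := by ring
    rw [this, h2, zero_mul]
  let Dg : (Fin m → R) →ₗ[k] Matrix (Fin n) (Fin n) R :=
    { toFun := fun v => ∑ i, v i • Matrix.vecMulVec (h i) (h i)
      map_add' := fun v w => by simp [add_smul, Finset.sum_add_distrib]
      map_smul' := fun c v => by simp [Finset.smul_sum, smul_assoc] }
  have hDg : ∀ v, Dg v = ∑ i, v i • Matrix.vecMulVec (h i) (h i) := fun v => rfl
  let ψ : (LinearMap.range (opL k E) × (Fin m → R)) →ₗ[k] Matrix (Fin n) (Fin n) R :=
    (Submodule.subtype _).coprod Dg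
  have hone : ∀ i, E * Matrix.vecMulVec (h i) (h i) = 0 := fun i => by
    rw [Matrix.mul_vecMulVec, hh i, Matrix.zero_vecMulVec]
  have hone' : ∀ i, Matrix.vecMulVec (h i) (h i) * Eᵀ = 0 := fun i => by
    rw [Matrix.vecMulVec_mul, Matrix.vecMul_transpose, hh i, Matrix.vecMulVec_zero]
  have hsym : ∀ i, (Matrix.vecMulVec (h i) (h i))ᵀ = Matrix.vecMulVec (h i) (h i) := fun i => by
    rw [Matrix.transpose_vecMulVec]
  have hψk : ∀ z, ψ z ∈ LinearMap.ker (opL k E) := by
    rintro ⟨⟨w, ⟨Y, rfl⟩⟩, v⟩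
    have : ψ ⟨⟨opL k E Y, ⟨Y, rfl⟩⟩, v⟩ = opL k E Y + Dg v := by
      simp [ψ, LinearMap.coprod_apply]
    rw [this]
    refine Submodule.add_mem _ ?_ ?_
    · rw [LinearMap.mem_ker]; exact opL_opL h2 hE Y
    · rw [LinearMap.mem_ker, hDg, opL_apply, Finset.mul_sum, Finset.sum_mul, transpose_sum]
      have e1 : ∑ i, E * v i • Matrix.vecMulVec (h i) (h i) = 0 :=
        Finset.sum_eq_zero fun i _ => by rw [Matrix.mul_smul, hone, smul_zero]
      have e2 : ∑ i, v i • Matrix.vecMulVec (h i) (h i) * Eᵀ = 0 :=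
        Finset.sum_eq_zero fun i _ => by rw [Matrix.smul_mul, hone', smul_zero]
      have e3 : ∑ i, (v i • Matrix.vecMulVec (h i) (h i))ᵀ =
          ∑ i, v i • Matrix.vecMulVec (h i) (h i) :=
        Finset.sum_congr rfl fun i _ => by rw [transpose_smul, hsym]
      rw [e1, e2, e3, zero_add, zero_add]
      exact add_self_mat h2 _
  have hφE : ∀ i, Eᵀ.mulVec (φ i) = 0 := fun i => by rw [Matrix.mulVec_transpose, hφ]
  have hψi : Function.Injective ψ := by
    rw [injective_iff_map_eq_zero]
    rintro ⟨⟨w, ⟨Y, rfl⟩⟩, v⟩ h0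
    have h1 : opL k E Y + Dg v = 0 := by
      have : ψ ⟨⟨opL k E Y, ⟨Y, rfl⟩⟩, v⟩ = opL k E Y + Dg v := by
        simp [ψ, LinearMap.coprod_apply]
      rw [← this]; exact h0
    have hv : v = 0 := by
      funext i
      have h3 : φ i ⬝ᵥ (opL k E Y + Dg v).mulVec (φ i) = 0 := by
        rw [h1]; simp
      have h4 : φ i ⬝ᵥ (opL k E Y).mulVec (φ i) = 0 := by
        have e1 : φ i ⬝ᵥ (E * Y).mulVec (φ i) = 0 := by
          rw [Matrix.dotProduct_mulVec, ← Matrix.vecMul_vecMul, hφ, Matrix.zero_vecMul,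
            zero_dotProduct]
        have e2 : φ i ⬝ᵥ (Y * Eᵀ).mulVec (φ i) = 0 := by
          rw [← Matrix.mulVec_mulVec, hφE, Matrix.mulVec_zero, dotProduct_zero]
        have e3 : φ i ⬝ᵥ (Yᵀ).mulVec (φ i) = φ i ⬝ᵥ Y.mulVec (φ i) := by
          rw [Matrix.mulVec_transpose, Matrix.dotProduct_mulVec, dotProduct_comm]
        rw [opL_apply, Matrix.add_mulVec, Matrix.add_mulVec, Matrix.add_mulVec,
          dotProduct_add, dotProduct_add, dotProduct_add, e1, e2, e3, zero_add, zero_add, hadd]
      have h5 : φ i ⬝ᵥ (Dg v).mulVec (φ i) = v i := by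
        rw [hDg, Matrix.sum_mulVec, dotProduct_sum, Finset.sum_eq_single i]
        · rw [Matrix.smul_mulVec, dotProduct_smul, Matrix.vecMulVec_mulVec]
          have : h i ⬝ᵥ φ i = 1 := by rw [dotProduct_comm, hφh, if_pos rfl]
          simp [this, hφh]
        · intro j _ hj
          rw [Matrix.smul_mulVec, dotProduct_smul, Matrix.vecMulVec_mulVec]
          have : h j ⬝ᵥ φ i = 0 := by rw [dotProduct_comm, hφh, if_neg (Ne.symm hj)]
          simp [this]
        · intro h; exact absurd (Finset.mem_univ i) h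
      rw [Matrix.add_mulVec, dotProduct_add, h4, h5, zero_add] at h3
      simpa using h3
    subst hv
    rw [map_zero, add_zero] at h1
    ext1
    · exact Subtype.ext h1
    · rfl
  have := LinearMap.finrank_le_finrank_of_injective
    (f := LinearMap.codRestrict (LinearMap.ker (opL k E)) ψ hψk)
    (by
      intro a b hab
      apply hψi
      exact congrArg Subtype.val hab)
  rw [Module.finrank_prod, Module.finrank_pi_fintype, Finset.sum_const, Finset.card_univ,
    Fintype.card_fin, smul_eq_mul] at this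
  exact this

end Pool.Agent.KS6_22.TS
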