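import Pool.Agent.KS6_22.TS.Core

set_option autoImplicit false

namespace Pool.Agent.KS6_22.TS

open Matrix Module

variable {k R : Type} [Field k] [CommRing R] [Algebra k R] {n : ℕ}

/-- the operator `X ↦ D X` on matrices -/
noncomputable def opD (k : Type) {R : Type} [Field k] [CommRing R] [Algebra k R] {n : ℕ}
    (D : Matrix (Fin n) (Fin n) R) :
    Matrix (Fin n) (Fin n) R →ₗ[k] Matrix (Fin n) (Fin n) R where
  toFun X := D * X
  map_add' X Y := by rw [mul_add]
  map_smul' c X := by simp [mul_smul_comm]

@[simp] lemma opD_apply (D X : Matrix (Fin n) (Fin n) R) : opD k D X = D * X := rfl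

/-- matrices supported in columns of degree less than `m` -/
def Gil (k : Type) {R : Type} [Field k] [CommRing R] [Algebra k R] {n : ℕ} (deg : Fin n → ℕ)
    (m : ℕ) : Submodule k (Matrix (Fin n) (Fin n) R) where
  carrier := {X | ∀ i j, m ≤ deg j → X i j = 0}
  add_mem' := by
    intro X Y hX hY i j h
    rw [Matrix.add_apply, hX i j h, hY i j h, add_zero]
  zero_mem' := by intro i j _; rfl
  smul_mem' := by
    intro c X hX i j h
    rw [Matrix.smul_apply, hX i j h, smul_zero]

/-- projection to the columns of degree `m` -/
def prc (k : Type) {R : Type} [Field k] [CommRing R] [Algebra k R] {n : ℕ} (deg : Fin n → ℕ)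
    (m : ℕ) : Matrix (Fin n) (Fin n) R →ₗ[k] Matrix (Fin n) (Fin n) R where
  toFun X := Matrix.of fun i j => if deg j = m then X i j else 0
  map_add' X Y := by
    ext i j
    simp only [Matrix.of_apply, Matrix.add_apply]
    split_ifs <;> simp
  map_smul' c X := by
    ext i j
    simp only [Matrix.of_apply, Matrix.smul_apply, RingHom.id_apply]
    split_ifs <;> simp

variable {deg : Fin n → ℕ}

lemma prc_apply (m : ℕ) (X : Matrix (Fin n) (Fin n) R) (i j : Fin n) :
    prc k deg m X i j = if deg j = m then X i j else 0 := rfl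

lemma opD_prc (D : Matrix (Fin n) (Fin n) R) (m : ℕ) (X : Matrix (Fin n) (Fin n) R) (i j : Fin n) :
    opD k D (prc k deg m X) i j = if deg j = m then (D * X) i j else 0 := by
  simp only [opD_apply, Matrix.mul_apply, prc_apply]
  split_ifs with h
  · rfl
  · simp

lemma finrank_split [FiniteDimensional k R] (K : Submodule k (Matrix (Fin n) (Fin n) R))
    (p : Matrix (Fin n) (Fin n) R →ₗ[k] Matrix (Fin n) (Fin n) R) :
    finrank k K = finrank k (K.map p) + finrank k (K ⊓ LinearMap.ker p : Submodule k _) := by
  have h := LinearMap.finrank_range_add_finrank_ker (p.domRestrict K)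
  rw [LinearMap.range_domRestrict] at h
  rw [← h]
  congr 1
  have : LinearMap.ker (p.domRestrict K) = (K ⊓ LinearMap.ker p).comap K.subtype := by
    ext x
    simp
  rw [this]
  exact LinearEquiv.finrank_eq (Submodule.comapSubtypeEquivOfLe inf_le_left)

lemma flag_step [FiniteDimensional k R] (D : Matrix (Fin n) (Fin n) R)
    (hdeg : ∀ i j, D i j ≠ 0 → deg i < deg j) (m : ℕ)
    (ih : finrank k (LinearMap.ker (opT k D) ⊓ Gil k deg m : Submodule k _) ≤
      finrank k (LinearMap.ker (opD k D) ⊓ Gil k deg m : Submodule k _)) :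
    finrank k (LinearMap.ker (opT k D) ⊓ Gil k deg (m + 1) : Submodule k _) ≤
      finrank k (LinearMap.ker (opD k D) ⊓ Gil k deg (m + 1) : Submodule k _) := by
  have hF : (Gil k deg (m + 1) ⊓ LinearMap.ker (prc k deg m) :
      Submodule k (Matrix (Fin n) (Fin n) R)) = Gil k deg m := by
    ext X
    simp only [Submodule.mem_inf, LinearMap.mem_ker]
    constructor
    · rintro ⟨h1, h2⟩ i j hij
      rcases eq_or_lt_of_le hij with h | h
      · have := congrFun (congrFun h2 i) j
        rw [prc_apply, if_pos h.symm] at this
        exact this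
      · exact h1 i j h
    · intro h
      refine ⟨fun i j hij => h i j (by omega), ?_⟩
      ext i j
      rw [prc_apply]
      split_ifs with h1
      · exact h i j (by omega)
      · rfl
  rw [finrank_split (LinearMap.ker (opT k D) ⊓ Gil k deg (m + 1)) (prc k deg m),
    finrank_split (LinearMap.ker (opD k D) ⊓ Gil k deg (m + 1)) (prc k deg m), inf_assoc,
    inf_assoc, hF]
  refine add_le_add (Submodule.finrank_mono ?_) ih
  rintro _ ⟨X, ⟨hX1, hX2⟩, rfl⟩
  refine ⟨prc k deg m X, ⟨?_, ?_⟩, ?_⟩
  · change opD k D (prc k deg m X) = 0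
    ext i j
    rw [opD_prc]
    split_ifs with h
    · have h1 := congrFun (congrFun hX1 i) j
      simp only [opT_apply, Matrix.add_apply, Matrix.zero_apply] at h1
      have h2 : (X * Dᵀ) i j = 0 := by
        rw [Matrix.mul_apply]
        refine Finset.sum_eq_zero fun l _ => ?_
        rw [transpose_apply]
        by_cases hl : D j l = 0
        · rw [hl, mul_zero]
        · rw [hX2 i l (by have := hdeg j l hl; omega), zero_mul]
      rw [h2, add_zero] at h1
      exact h1
    · rfl
  · intro i j hij
    rw [prc_apply, if_neg (by omega)]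
  · ext i j
    rw [prc_apply, prc_apply]
    split_ifs <;> rfl

lemma ker_opT_le_ker_opD [FiniteDimensional k R] (D : Matrix (Fin n) (Fin n) R)
    (hdeg : ∀ i j, D i j ≠ 0 → deg i < deg j) :
    finrank k (LinearMap.ker (opT k D)) ≤ finrank k (LinearMap.ker (opD k D)) := by
  have key : ∀ m : ℕ,
      finrank k (LinearMap.ker (opT k D) ⊓ Gil k deg m : Submodule k _) ≤
      finrank k (LinearMap.ker (opD k D) ⊓ Gil k deg m : Submodule k _) := by
    intro m
    induction m with
    | zero =>
      have : (LinearMap.ker (opT k D) ⊓ Gil k deg 0 : Submodule k (Matrix (Fin n) (Fin n) R)) =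
          ⊥ := by
        rw [eq_bot_iff]
        rintro X ⟨-, hX⟩
        rw [Submodule.mem_bot]
        ext i j
        exact hX i j (Nat.zero_le _)
      rw [this]
      simp
    | succ a iha => exact flag_step D hdeg a iha
  have h0 := key ((∑ i, deg i) + 1)
  have hF : (Gil k deg ((∑ i, deg i) + 1) : Submodule k (Matrix (Fin n) (Fin n) R)) = ⊤ := by
    rw [eq_top_iff]
    intro X _ i j h
    have := Finset.single_le_sum (f := deg) (fun _ _ => Nat.zero_le _) (Finset.mem_univ j)
    omega
  rw [hF, inf_top_eq, inf_top_eq] at h0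
  exact h0

/-- the kernel of `X ↦ D X` consists of `n` copies of the kernel of `D` -/
lemma finrank_ker_opD [FiniteDimensional k R] (D : Matrix (Fin n) (Fin n) R) :
    finrank k (LinearMap.ker (opD k D)) =
      n * finrank k (LinearMap.ker ((Matrix.mulVecLin D).restrictScalars k)) := by
  let N := LinearMap.ker ((Matrix.mulVecLin D).restrictScalars k)
  let e : LinearMap.ker (opD k D) ≃ₗ[k] (Fin n → N) :=
    { toFun := fun X j => ⟨fun i => X.1 i j, by
        have h := X.2
        rw [LinearMap.mem_ker, opD_apply] at h
        rw [LinearMap.mem_ker]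
        funext i
        exact congrFun (congrFun h i) j⟩
      map_add' := fun X Y => by
        funext j
        rfl
      map_smul' := fun c X => by
        funext j
        rfl
      invFun := fun Y => ⟨Matrix.of fun i j => (Y j).1 i, by
        rw [LinearMap.mem_ker, opD_apply]
        ext i j
        have h := (Y j).2
        rw [LinearMap.mem_ker] at h
        exact congrFun h i⟩
      left_inv := fun X => rfl
      right_inv := fun Y => rfl }
  rw [LinearEquiv.finrank_eq e, Module.finrank_pi_fintype, Finset.sum_const, Finset.card_univ,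
    Fintype.card_fin, smul_eq_mul]

end Pool.Agent.KS6_22.TS
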