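import Pool.Agent.KS6_22.TS.Reps

set_option autoImplicit false
set_option maxHeartbeats 400000

namespace Pool.Agent.KS6_22.TS

open Matrix Module

variable {K R : Type} [Field K] [CommRing R] [Algebra K R] {d : ℕ}

/-- A squarefree grading of an algebra: a decomposition into subspaces indexed by the subsets of a
finite set, such that the product of two components lies in the component of the union if the
subsets are disjoint, and is zero otherwise. -/
def IsSquarefreeGrading (A : Finset (Fin d) → Submodule K R) : Prop :=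
  DirectSum.IsInternal A ∧
    ∀ S T : Finset (Fin d), ∀ a ∈ A S, ∀ b ∈ A T,
      (Disjoint S T → a * b ∈ A (S ∪ T)) ∧ (¬ Disjoint S T → a * b = 0)

/-- the Euler derivations of a squarefree grading -/
lemma exists_theta {A : Finset (Fin d) → Submodule K R} (hA : IsSquarefreeGrading A) (i : Fin d) :
    ∃ θ : R →+ R, (∀ S, ∀ a ∈ A S, θ a = if i ∈ S then a else 0) ∧
      (∀ a b, θ (a * b) = θ a * b + a * θ b) ∧ ∀ a b, θ a * θ b = 0 := by
  classical
  obtain ⟨hint, hmul⟩ := hA
  let e : (DirectSum (Finset (Fin d)) fun S => A S) ≃ₗ[K] R :=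
    LinearEquiv.ofBijective (DirectSum.coeLinearMap A) hint
  let G : (DirectSum (Finset (Fin d)) fun S => A S) →ₗ[K] R :=
    DirectSum.toModule K _ R (fun S => if i ∈ S then (A S).subtype else 0)
  let θ : R →ₗ[K] R := G ∘ₗ (e.symm : R →ₗ[K] _)
  have hθ : ∀ S, ∀ a ∈ A S, θ a = if i ∈ S then a else 0 := by
    intro S a ha
    have h1 : e (DirectSum.lof K _ (fun S => A S) S ⟨a, ha⟩) = a := by
      change DirectSum.coeLinearMap A (DirectSum.lof K _ (fun S => A S) S ⟨a, ha⟩) = a
      rw [DirectSum.coeLinearMap_lof]
    have h2 : e.symm a = DirectSum.lof K _ (fun S => A S) S ⟨a, ha⟩ := by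
      rw [LinearEquiv.symm_apply_eq, h1]
    change G (e.symm a) = _
    rw [h2]
    change DirectSum.toModule K _ R _ _ = _
    rw [DirectSum.toModule_lof]
    split_ifs <;> simp
  have htop : ∀ a : R, a ∈ ⨆ S, A S := by
    intro a
    rw [hint.submodule_iSup_eq_top]
    trivial
  refine ⟨θ.toAddMonoidHom, hθ, ?_, ?_⟩
  · intro a b
    change θ (a * b) = θ a * b + a * θ b
    refine Submodule.iSup_induction A (motive := fun a => θ (a * b) = θ a * b + a * θ b)
      (htop a) ?_ ?_ ?_
    · intro S a ha
      refine Submodule.iSup_induction A (motive := fun b => θ (a * b) = θ a * b + a * θ b)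
        (htop b) ?_ ?_ ?_
      · intro T b hb
        rw [hθ S a ha, hθ T b hb]
        by_cases hdis : Disjoint S T
        · rw [hθ _ _ ((hmul S T a ha b hb).1 hdis)]
          by_cases h1 : i ∈ S
          · have h2 : i ∉ T := Finset.disjoint_left.mp hdis h1
            rw [if_pos (Finset.mem_union_left _ h1), if_pos h1, if_neg h2, mul_zero, add_zero]
          · by_cases h2 : i ∈ T
            · rw [if_pos (Finset.mem_union_right _ h2), if_neg h1, if_pos h2, zero_mul, zero_add]
            · rw [if_neg h1, if_neg h2, if_neg (by simp [h1, h2]), zero_mul, mul_zero, add_zero]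
        · have h0 := (hmul S T a ha b hb).2 hdis
          rw [h0, map_zero]
          split_ifs <;> simp [h0]
      · simp
      · intro x y hx hy
        rw [mul_add, map_add, map_add, hx, hy]
        ring
    · simp
    · intro x y hx hy
      rw [add_mul, map_add, map_add, hx, hy]
      ring
  · intro a b
    change θ a * θ b = 0
    refine Submodule.iSup_induction A (motive := fun a => θ a * θ b = 0) (htop a) ?_ ?_ ?_
    · intro S a ha
      refine Submodule.iSup_induction A (motive := fun b => θ a * θ b = 0) (htop b) ?_ ?_ ?_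
      · intro T b hb
        rw [hθ S a ha, hθ T b hb]
        by_cases h1 : i ∈ S
        · by_cases h2 : i ∈ T
          · rw [if_pos h1, if_pos h2]
            exact (hmul S T a ha b hb).2 (Finset.not_disjoint_iff.mpr ⟨i, h1, h2⟩)
          · rw [if_neg h2, mul_zero]
        · rw [if_neg h1, zero_mul]
      · simp
      · intro x y hx hy
        rw [map_add, mul_add, hx, hy, add_zero]
    · simp
    · intro x y hx hy
      rw [map_add, add_mul, hx, hy, add_zero]

lemma iter_of_mem (h2 : (2 : R) = 0) {A : Finset (Fin d) → Submodule K R}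
    (θ : Fin d → R →+ R) (hθ : ∀ i, ∀ S, ∀ a ∈ A S, θ i a = if i ∈ S then a else 0)
    (l : List (Fin d)) (S : Finset (Fin d)) (a : R) (ha : a ∈ A S) :
    iter (l.map θ) a = if ∃ i ∈ l, i ∈ S then 0 else a := by
  classical
  induction l with
  | nil => simp [iter]
  | cons i l ih =>
    have hc : iter ((i :: l).map θ) a = iter (l.map θ) a + θ i (iter (l.map θ) a) := rfl
    rw [hc, ih]
    by_cases h1 : ∃ i ∈ l, i ∈ S
    · rw [if_pos h1, if_pos (by
        obtain ⟨j, hj, hj'⟩ := h1
        exact ⟨j, List.mem_cons_of_mem _ hj, hj'⟩), map_zero, add_zero]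
    · rw [if_neg h1, hθ i S a ha]
      by_cases h3 : i ∈ S
      · rw [if_pos h3, if_pos ⟨i, List.mem_cons_self, h3⟩]
        have : a + a = 2 * a := by ring
        rw [this, h2, zero_mul]
      · rw [if_neg h3, if_neg, add_zero]
        rintro ⟨j, hj, hj'⟩
        rcases List.mem_cons.mp hj with rfl | hj
        · exact h3 hj'
        · exact h1 ⟨j, hj, hj'⟩

/-- the main estimate for algebras with a squarefree grading -/
theorem main_graded [FiniteDimensional K R] (h2 : (2 : R) = 0)
    (A : Finset (Fin d) → Submodule K R) (hA : IsSquarefreeGrading A) {n : ℕ}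
    (D : Matrix (Fin n) (Fin n) R) (hD : D * D = 0) (D₀ : Matrix (Fin n) (Fin n) K)
    (hD₀ : ∀ i j, D i j - algebraMap K R (D₀ i j) ∈ ⨆ S ∈ {S : Finset (Fin d) | S ≠ ∅}, A S) :
    finrank K (LinearMap.ker (Matrix.mulVecLin D₀)) * finrank K R +
        finrank K (LinearMap.range (opT K D)) ≤
      finrank K (LinearMap.ker (opT K D)) +
        finrank K (LinearMap.range (Matrix.mulVecLin D₀)) * finrank K R := by
  classical
  rcases subsingleton_or_nontrivial R with hR | hR
  · have h1 : finrank K R = 0 := Module.finrank_zero_of_subsingleton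
    have h3 : finrank K (LinearMap.range (opT K D)) = 0 :=
      Module.finrank_zero_of_subsingleton
    rw [h1, h3]
    simp
  choose θ hθ1 hθ2 hθ3 using fun i => exists_theta hA i
  set l := (List.finRange d).map θ with hl
  have hl1 : ∀ φ ∈ l, ∀ a b, φ (a * b) = φ a * b + a * φ b := by
    intro φ hφ
    obtain ⟨i, -, rfl⟩ := List.mem_map.mp hφ
    exact hθ2 i
  have hl2 : ∀ φ ∈ l, ∀ a b, φ a * φ b = 0 := by
    intro φ hφ
    obtain ⟨i, -, rfl⟩ := List.mem_map.mp hφ
    exact hθ3 i
  -- `θ i` kills the scalars
  have hone : ∀ i, ∀ c : K, θ i (algebraMap K R c) = 0 := by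
    intro i c
    have htop : ∀ a : R, a ∈ ⨆ S, A S := by
      intro a
      rw [hA.1.submodule_iSup_eq_top]
      trivial
    have hlin : ∀ a : R, θ i (c • a) = c • θ i a := by
      intro a
      refine Submodule.iSup_induction A (motive := fun a => θ i (c • a) = c • θ i a) (htop a)
        ?_ ?_ ?_
      · intro S a ha
        rw [hθ1 i S a ha, hθ1 i S (c • a) ((A S).smul_mem c ha)]
        split_ifs <;> simp
      · simp
      · intro x y hx hy
        rw [smul_add, map_add, map_add, smul_add, hx, hy]
    have h1 : θ i 1 = 0 := by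
      have := hθ2 i 1 1
      simp only [one_mul, mul_one] at this
      have h3 : θ i 1 + θ i 1 = θ i 1 + 0 := by
        rw [add_zero]
        exact this.symm
      exact add_left_cancel h3
    rw [Algebra.algebraMap_eq_smul_one, hlin, h1, smul_zero]
  have hscal : ∀ c : K, iter l (algebraMap K R c) = algebraMap K R c := by
    intro c
    rw [hl]
    generalize List.finRange d = l'
    induction l' with
    | nil => rfl
    | cons i l' ih =>
      have hc : iter ((i :: l').map θ) (algebraMap K R c) =
        iter (l'.map θ) (algebraMap K R c) + θ i (iter (l'.map θ) (algebraMap K R c)) := rfl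
      rw [hc, ih, hone, add_zero]
  have hpos : ∀ a ∈ ⨆ S ∈ {S : Finset (Fin d) | S ≠ ∅}, A S, iter l a = 0 := by
    intro a ha
    have h0 : iter l (0 : R) = 0 := by
      have := hscal 0
      rwa [map_zero] at this
    rw [iSup_subtype'] at ha
    refine Submodule.iSup_induction (fun S : {S : Finset (Fin d) | S ≠ ∅} => A S)
      (motive := fun a => iter l a = 0) ha ?_ h0 ?_
    · rintro ⟨S, hS⟩ a ha
      obtain ⟨i, hi⟩ := Finset.nonempty_iff_ne_empty.mpr hS
      rw [hl, iter_of_mem h2 θ hθ1 _ S a ha, if_pos ⟨i, List.mem_finRange i, hi⟩]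
    · intro x y hx hy
      rw [iter_add, hx, hy, add_zero]
  have hit : D.map (iter l) = D₀.map (algebraMap K R) := by
    ext i j
    rw [Matrix.map_apply, Matrix.map_apply]
    have h3 : D i j = algebraMap K R (D₀ i j) + (D i j - algebraMap K R (D₀ i j)) := by ring
    rw [h3, iter_add, hscal, hpos _ (hD₀ i j), add_zero]
  refine main_general h2 l hl1 hl2 D hD D₀ ?_ hit
  have h4 := (chain h2 l hl1 hl2 D hD).1
  rw [hit, ← Matrix.map_mul] at h4
  ext i j
  have h5 := congrFun (congrFun h4 i) j
  rw [Matrix.map_apply, Matrix.zero_apply] at h5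
  rw [Matrix.zero_apply]
  exact (map_eq_zero_iff _ (algebraMap K R).injective).mp h5

/-- the consequence for differential flags -/
theorem main_flag [FiniteDimensional K R] (h2 : (2 : R) = 0)
    (A : Finset (Fin d) → Submodule K R) (hA : IsSquarefreeGrading A) {n : ℕ} (hn : 0 < n)
    (D : Matrix (Fin n) (Fin n) R) (hD : D * D = 0)
    (hD₀ : ∀ i j, D i j ∈ ⨆ S ∈ {S : Finset (Fin d) | S ≠ ∅}, A S)
    (deg : Fin n → ℕ) (hdeg : ∀ i j, D i j ≠ 0 → deg i < deg j) :
    finrank K R + finrank K (LinearMap.range ((Matrix.mulVecLin D).restrictScalars K)) ≤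
      finrank K (LinearMap.ker ((Matrix.mulVecLin D).restrictScalars K)) := by
  have h1 := main_graded h2 A hA D hD 0 (fun i j => by simpa using hD₀ i j)
  have h3 := ker_opT_le_ker_opD (k := K) D hdeg
  rw [finrank_ker_opD] at h3
  have h4 := LinearMap.finrank_range_add_finrank_ker (opT K D)
  have h5 := LinearMap.finrank_range_add_finrank_ker ((Matrix.mulVecLin D).restrictScalars K)
  have h6 : finrank K (LinearMap.ker (Matrix.mulVecLin (0 : Matrix (Fin n) (Fin n) K))) = n := by
    rw [Matrix.mulVecLin_zero, LinearMap.ker_zero, finrank_top]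
    simp
  have h7 : finrank K (LinearMap.range (Matrix.mulVecLin (0 : Matrix (Fin n) (Fin n) K))) = 0 := by
    rw [Matrix.mulVecLin_zero, LinearMap.range_zero, finrank_bot]
  rw [h6, h7, zero_mul, add_zero] at h1
  have h8 : finrank K (Matrix (Fin n) (Fin n) R) = n * (n * finrank K R) := by
    rw [Module.finrank_matrix]
    simp [mul_assoc]
  have h9 : finrank K (Fin n → R) = n * finrank K R := by
    rw [Module.finrank_pi_fintype]
    simp
  rw [h8] at h4
  rw [h9] at h5
  set r := finrank K R
  set a := finrank K (LinearMap.range ((Matrix.mulVecLin D).restrictScalars K))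
  set b := finrank K (LinearMap.ker ((Matrix.mulVecLin D).restrictScalars K))
  set s := finrank K (LinearMap.range (opT K D))
  set t := finrank K (LinearMap.ker (opT K D))
  -- `n r + s ≤ t`, `s + t = n n r`, `t ≤ n b`, `a + b = n r`
  have h10 : n * (r + a) ≤ n * b := by
    have e1 : n * (a + b) = n * (n * r) := by rw [h5]
    nlinarith
  exact Nat.le_of_mul_le_mul_left h10 hn

end Pool.Agent.KS6_22.TS
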