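import Pool.Agent.KS6_22.TS.Grading

set_option autoImplicit false
set_option maxHeartbeats 400000

namespace Pool.Agent.KS6_22.TS

open Matrix Module MvPolynomial

variable {k : Type} [Field k] {d : ℕ}

/-- the ideal of squares -/
noncomputable def sqI (k : Type) [Field k] (d : ℕ) : Ideal (MvPolynomial (Fin d) k) :=
  Ideal.span (Set.range (fun i : Fin d => (MvPolynomial.X i : MvPolynomial (Fin d) k) ^ 2))

lemma mem_sqI_iff (p : MvPolynomial (Fin d) k) :
    p ∈ sqI k d ↔ ∀ a ∈ p.support, ∃ i, 2 ≤ a i := by
  have h : (Set.range (fun i : Fin d => (MvPolynomial.X i : MvPolynomial (Fin d) k) ^ 2)) =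
      (fun s => monomial s (1 : k)) '' (Set.range fun i : Fin d => Finsupp.single i 2) := by
    ext q
    simp [MvPolynomial.X_pow_eq_monomial]
  rw [sqI, h, mem_ideal_span_monomial_image]
  constructor
  · intro hp a ha
    obtain ⟨s, ⟨i, rfl⟩, hs⟩ := hp a ha
    refine ⟨i, ?_⟩
    have := hs i
    simpa using this
  · intro hp a ha
    obtain ⟨i, hi⟩ := hp a ha
    refine ⟨Finsupp.single i 2, ⟨i, rfl⟩, ?_⟩
    rw [Finsupp.single_le_iff]
    exact hi

/-- the squarefree coefficients -/
noncomputable def sqc (k : Type) [Field k] (d : ℕ) :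
    MvPolynomial (Fin d) k →ₗ[k] (Finset (Fin d) → k) where
  toFun p S := coeff (Finsupp.indicator S fun _ _ => 1) p
  map_add' p q := by ext S; simp
  map_smul' c p := by ext S; simp

lemma sqc_ker : LinearMap.ker (sqc k d) = (sqI k d).restrictScalars k := by
  ext p
  rw [LinearMap.mem_ker, Submodule.restrictScalars_mem, mem_sqI_iff]
  constructor
  · intro h a ha
    by_contra hcon
    push Not at hcon
    have : a = Finsupp.indicator a.support fun _ _ => 1 := by
      ext i
      rw [Finsupp.indicator_apply]
      split_ifs with hi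
      · have := hcon i
        rw [Finsupp.mem_support_iff] at hi
        omega
      · rwa [Finsupp.notMem_support_iff] at hi
    have h2 := congrFun h a.support
    change coeff (Finsupp.indicator a.support fun _ _ => 1) p = 0 at h2
    rw [← this] at h2
    exact (mem_support_iff.mp ha) h2
  · intro h
    funext S
    change coeff (Finsupp.indicator S fun _ _ => 1) p = 0
    by_contra hcon
    obtain ⟨i, hi⟩ := h _ (mem_support_iff.mpr hcon)
    rw [Finsupp.indicator_apply] at hi
    split_ifs at hi <;> omega

lemma sqc_surj : Function.Surjective (sqc k d) := by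
  intro c
  refine ⟨∑ S : Finset (Fin d), monomial (Finsupp.indicator S fun _ _ => 1) (c S), ?_⟩
  funext S
  change coeff (Finsupp.indicator S fun _ _ => 1) _ = c S
  rw [coeff_sum, Finset.sum_eq_single S]
  · simp
  · intro T _ hT
    rw [coeff_monomial, if_neg]
    intro h
    apply hT
    ext i
    have := DFunLike.congr_fun h i
    rw [Finsupp.indicator_apply, Finsupp.indicator_apply] at this
    by_cases h1 : i ∈ T <;> by_cases h2 : i ∈ S <;> simp_all
  · intro h; exact absurd (Finset.mem_univ S) h

/-- the quotient has dimension `2^d` -/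
noncomputable def quotEquiv : (MvPolynomial (Fin d) k ⧸ sqI k d) ≃ₗ[k] (Finset (Fin d) → k) :=
  (Submodule.Quotient.restrictScalarsEquiv k (sqI k d)).symm ≪≫ₗ
    (Submodule.quotEquivOfEq _ _ sqc_ker.symm) ≪≫ₗ
    (sqc k d).quotKerEquivOfSurjective sqc_surj

lemma finrank_quot : finrank k (MvPolynomial (Fin d) k ⧸ sqI k d) = 2 ^ d := by
  rw [LinearEquiv.finrank_eq quotEquiv, Module.finrank_fintype_fun_eq_card, Fintype.card_finset,
    Fintype.card_fin]

lemma finite_quot : FiniteDimensional k (MvPolynomial (Fin d) k ⧸ sqI k d) :=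
  Module.Finite.equiv (quotEquiv (k := k) (d := d)).symm


/-- the basis of the quotient by squarefree monomials -/
noncomputable def sqB (k : Type) [Field k] (d : ℕ) :
    Basis (Finset (Fin d)) k (MvPolynomial (Fin d) k ⧸ sqI k d) :=
  Basis.ofEquivFun quotEquiv

lemma quotEquiv_mk (p : MvPolynomial (Fin d) k) :
    quotEquiv (Ideal.Quotient.mk (sqI k d) p) = sqc k d p := rfl

lemma sqB_apply (S : Finset (Fin d)) :
    sqB k d S = Ideal.Quotient.mk (sqI k d) (monomial (Finsupp.indicator S fun _ _ => 1) 1) := by
  rw [sqB, Basis.coe_ofEquivFun, LinearEquiv.symm_apply_eq, quotEquiv_mk]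
  funext T
  change (Pi.single S (1 : k) : Finset (Fin d) → k) T = coeff (Finsupp.indicator T fun _ _ => 1)
    (monomial (Finsupp.indicator S fun _ _ => 1) (1 : k))
  rw [coeff_monomial]
  by_cases h : S = T
  · subst h
    simp
  · rw [if_neg]
    · rw [Pi.single_eq_of_ne (Ne.symm h)]
    · intro h1
      apply h
      ext i
      have := DFunLike.congr_fun h1 i
      rw [Finsupp.indicator_apply, Finsupp.indicator_apply] at this
      by_cases h1 : i ∈ T <;> by_cases h2 : i ∈ S <;> simp_all

/-- the components of the quotient -/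
noncomputable def sqA (k : Type) [Field k] (d : ℕ) (S : Finset (Fin d)) :
    Submodule k (MvPolynomial (Fin d) k ⧸ sqI k d) := Submodule.span k {sqB k d S}

lemma sqB_mul (S T : Finset (Fin d)) :
    (Disjoint S T → sqB k d S * sqB k d T = sqB k d (S ∪ T)) ∧
      (¬ Disjoint S T → sqB k d S * sqB k d T = 0) := by
  rw [sqB_apply, sqB_apply, sqB_apply, ← map_mul, monomial_mul, one_mul]
  constructor
  · intro h
    have h0 : (Finsupp.indicator S fun _ _ => (1 : ℕ)) + (Finsupp.indicator T fun _ _ => (1 : ℕ)) =
        Finsupp.indicator (S ∪ T) fun _ _ => (1 : ℕ) := by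
      ext i
      rw [Finsupp.add_apply, Finsupp.indicator_apply, Finsupp.indicator_apply,
        Finsupp.indicator_apply]
      by_cases h1 : i ∈ S
      · have h2 : i ∉ T := Finset.disjoint_left.mp h h1
        simp [h1, h2]
      · by_cases h2 : i ∈ T <;> simp [h1, h2]
    rw [h0]
  · intro h
    obtain ⟨i, h1, h2⟩ := Finset.not_disjoint_iff.mp h
    rw [Ideal.Quotient.eq_zero_iff_mem, mem_sqI_iff]
    intro a ha
    have := MvPolynomial.support_monomial_subset ha
    rw [Finset.mem_singleton] at this
    refine ⟨i, ?_⟩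
    rw [this, Finsupp.add_apply, Finsupp.indicator_apply, Finsupp.indicator_apply]
    simp [h1, h2]

lemma sqA_grading : IsSquarefreeGrading (sqA k d) := by
  refine ⟨?_, ?_⟩
  · apply DirectSum.isInternal_submodule_of_iSupIndep_of_iSup_eq_top
    · exact (sqB k d).linearIndependent.iSupIndep_span_singleton
    · rw [eq_top_iff, ← (sqB k d).span_eq, Submodule.span_le]
      rintro _ ⟨S, rfl⟩
      exact Submodule.mem_iSup_of_mem S (Submodule.mem_span_singleton_self _)
  · intro S T a ha b hb
    obtain ⟨x, rfl⟩ := Submodule.mem_span_singleton.mp ha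
    obtain ⟨y, rfl⟩ := Submodule.mem_span_singleton.mp hb
    constructor
    · intro h
      rw [smul_mul_smul_comm, (sqB_mul S T).1 h]
      exact Submodule.smul_mem _ _ (Submodule.mem_span_singleton_self _)
    · intro h
      rw [smul_mul_smul_comm, (sqB_mul S T).2 h, smul_zero]

lemma mem_pos (p : MvPolynomial (Fin d) k) (hc : constantCoeff p = 0) :
    Ideal.Quotient.mk (sqI k d) p ∈ ⨆ S ∈ {S : Finset (Fin d) | S ≠ ∅}, sqA k d S := by
  rw [← (sqB k d).sum_repr (Ideal.Quotient.mk (sqI k d) p)]
  refine Submodule.sum_mem _ fun S _ => ?_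
  by_cases hS : S = ∅
  · subst hS
    have h1 : (sqB k d).repr (Ideal.Quotient.mk (sqI k d) p) ∅ = 0 := by
      have h2 : (sqB k d).repr (Ideal.Quotient.mk (sqI k d) p) ∅ =
          quotEquiv (Ideal.Quotient.mk (sqI k d) p) ∅ := by
        rw [← Basis.equivFun_apply, sqB, Basis.equivFun_ofEquivFun]
      rw [h2, quotEquiv_mk]
      change coeff (Finsupp.indicator ∅ fun _ _ => 1) p = 0
      have h3 : (Finsupp.indicator (∅ : Finset (Fin d)) fun _ _ => (1 : ℕ)) = 0 := by
        ext i
        simp
      rw [h3]
      exact hc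
    rw [h1, zero_smul]
    exact Submodule.zero_mem _
  · refine Submodule.smul_mem _ _ ?_
    refine Submodule.mem_iSup_of_mem S (Submodule.mem_iSup_of_mem hS ?_)
    exact Submodule.mem_span_singleton_self _

end Pool.Agent.KS6_22.TS
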