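import Pool.Agent.KS6_22.TS.Base
import Pool.Agent.KS6_22.TS.Flag

set_option autoImplicit false
set_option maxHeartbeats 400000

namespace Pool.Agent.KS6_22.TS

open Matrix Module TensorProduct

/-- representatives of the homology and dual functionals, abstractly -/
lemma exists_reps' {K V : Type} [Field K] [AddCommGroup V] [Module K V] [FiniteDimensional K V]
    (f : V →ₗ[K] V) (hf : ∀ x, f (f x) = 0) :
    ∃ (m : ℕ) (h : Fin m → V) (φ : Fin m → V →ₗ[K] K), (∀ i, f (h i) = 0) ∧
      (∀ i v, φ i (f v) = 0) ∧ (∀ i j, φ i (h j) = if i = j then 1 else 0) ∧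
      finrank K (LinearMap.ker f) = finrank K (LinearMap.range f) + m := by
  have hle : LinearMap.range f ≤ LinearMap.ker f := by
    rintro _ ⟨x, rfl⟩
    rw [LinearMap.mem_ker, hf]
  obtain ⟨C, hC⟩ := ((LinearMap.range f).comap (LinearMap.ker f).subtype).exists_isCompl
  let ι : C →ₗ[K] V := (LinearMap.ker f).subtype ∘ₗ C.subtype
  let q : C →ₗ[K] (V ⧸ LinearMap.range f) := (LinearMap.range f).mkQ ∘ₗ ι
  have hι : Function.Injective q := by
    rw [injective_iff_map_eq_zero]
    intro x hx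
    have h1 : ι x ∈ LinearMap.range f := by
      rw [← Submodule.Quotient.mk_eq_zero]
      exact hx
    have h2 : (x : LinearMap.ker f) ∈ ((LinearMap.range f).comap (LinearMap.ker f).subtype) ⊓ C :=
      ⟨h1, x.2⟩
    rw [hC.inf_eq_bot, Submodule.mem_bot] at h2
    exact Subtype.ext h2
  have hker : LinearMap.ker q = ⊥ := LinearMap.ker_eq_bot_of_injective hι
  obtain ⟨s, hs⟩ := LinearMap.exists_leftInverse_of_injective (K := K) q hker
  let Φ : V →ₗ[K] C := s ∘ₗ (LinearMap.range f).mkQ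
  have hΦf : ∀ v, Φ (f v) = 0 := fun v => by
    have : (LinearMap.range f).mkQ (f v) = 0 := by
      rw [Submodule.mkQ_apply, Submodule.Quotient.mk_eq_zero]
      exact ⟨v, rfl⟩
    change s ((LinearMap.range f).mkQ (f v)) = 0
    rw [this, map_zero]
  have hΦι : ∀ c, Φ (ι c) = c := fun c => LinearMap.congr_fun hs c
  let b := finBasis K C
  refine ⟨finrank K C, fun i => ι (b i), fun i => (b.coord i) ∘ₗ Φ, ?_, ?_, ?_, ?_⟩
  · intro i
    exact (b i : LinearMap.ker f).2
  · intro i v
    rw [LinearMap.comp_apply, hΦf, map_zero]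
  · intro i j
    rw [LinearMap.comp_apply, hΦι]
    simp [Finsupp.single_apply, eq_comm]
  · have h1 := Submodule.finrank_add_eq_of_isCompl hC
    have h2 := LinearEquiv.finrank_eq (Submodule.comapSubtypeEquivOfLe hle)
    omega

/-- representatives of the homology and dual functionals -/
lemma exists_reps {K : Type} [Field K] {n : ℕ} (D₀ : Matrix (Fin n) (Fin n) K)
    (hD : D₀ * D₀ = 0) :
    ∃ (m : ℕ) (h φ : Fin m → Fin n → K), (∀ i, D₀.mulVec (h i) = 0) ∧
      (∀ i, Matrix.vecMul (φ i) D₀ = 0) ∧ (∀ i j, φ i ⬝ᵥ h j = if i = j then 1 else 0) ∧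
      finrank K (LinearMap.ker (Matrix.mulVecLin D₀)) =
        finrank K (LinearMap.range (Matrix.mulVecLin D₀)) + m := by
  obtain ⟨m, h, φ, h1, h2, h3, h4⟩ := exists_reps' (Matrix.mulVecLin D₀) (fun x => by
    rw [Matrix.mulVecLin_apply, Matrix.mulVecLin_apply, Matrix.mulVec_mulVec, hD,
      Matrix.zero_mulVec])
  have hφ : ∀ i v, (fun j => φ i (Pi.single j 1)) ⬝ᵥ v = φ i v := by
    intro i v
    have hv : v = ∑ j, v j • (Pi.single j (1 : K) : Fin n → K) := by
      funext l
      simp [Finset.sum_apply, Pi.single_apply]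
    conv_rhs => rw [hv]
    rw [map_sum, dotProduct]
    refine Finset.sum_congr rfl fun j _ => ?_
    rw [map_smul, smul_eq_mul, mul_comm]
  refine ⟨m, h, fun i j => φ i (Pi.single j 1), h1, ?_, ?_, h4⟩
  · intro i
    funext j
    have h5 : Matrix.vecMul (fun j => φ i (Pi.single j 1)) D₀ j =
        (fun j => φ i (Pi.single j 1)) ⬝ᵥ (D₀.mulVec (Pi.single j 1)) := by
      rw [Matrix.mulVec_single_one]
      rfl
    rw [h5, hφ]
    exact h2 i (Pi.single j 1)
  · intro i j
    rw [hφ, h3]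

/-- the main estimate: general form -/
theorem main_general_aux {K R : Type} [Field K] [CommRing R] [Algebra K R] [FiniteDimensional K R]
    (L : Type) [Field L] [Algebra K L] [Infinite L]
    (h2 : (2 : R) = 0) {n : ℕ} (l : List (R →+ R))
    (hθ : ∀ θ ∈ l, ∀ a b, θ (a * b) = θ a * b + a * θ b)
    (hθ2 : ∀ θ ∈ l, ∀ a b, θ a * θ b = 0)
    (D : Matrix (Fin n) (Fin n) R) (hD : D * D = 0) (D₀ : Matrix (Fin n) (Fin n) K)
    (hD₀ : D₀ * D₀ = 0) (hit : D.map (iter l) = D₀.map (algebraMap K R)) :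
    finrank K (LinearMap.ker (Matrix.mulVecLin D₀)) * finrank K R +
        finrank K (LinearMap.range (opT K D)) ≤
      finrank K (LinearMap.ker (opT K D)) +
        finrank K (LinearMap.range (Matrix.mulVecLin D₀)) * finrank K R := by
  obtain ⟨m, h, φ, hh, hφ, hφh, hm⟩ := exists_reps D₀ hD₀
  obtain ⟨v, hv, hle⟩ := exists_le_ker_opT (K := K) L D
  obtain ⟨-, hch⟩ := chain h2 l hθ hθ2 D hD
  let ιR : R →ₐ[K] L ⊗[K] R := Algebra.TensorProduct.includeRight
  have h3 := hch L (L ⊗[K] R) (ιR : R →+* L ⊗[K] R) v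
  have h2S : (2 : L ⊗[K] R) = 0 := by
    rw [← map_ofNat (ιR : R →+* L ⊗[K] R) 2, h2, map_zero]
  let g : K →+* L ⊗[K] R := (ιR : R →+* L ⊗[K] R).comp (algebraMap K R)
  have hE : (D.map (iter l)).map (ιR : R →+* L ⊗[K] R) = D₀.map g := by
    rw [hit]
    ext i j
    rfl
  rw [hE] at h3
  have hg0 : ∀ x : Fin n → K, (D₀.map g).mulVec (fun i => g (x i)) = fun i => g ((D₀.mulVec x) i) := by
    intro x
    funext i
    simp [Matrix.mulVec, dotProduct, map_sum]
  have hg1 : ∀ x : Fin n → K, Matrix.vecMul (fun i => g (x i)) (D₀.map g) =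
      fun i => g ((Matrix.vecMul x D₀) i) := by
    intro x
    funext i
    simp [Matrix.vecMul, dotProduct, map_sum]
  have h4 := ker_lower (k := L) (R := L ⊗[K] R) h2S (E := v • D₀.map g) (m := m) (by
      rw [Matrix.smul_mul, Matrix.mul_smul, ← Matrix.map_mul, hD₀]
      ext i j
      simp) (fun i j => g (h i j)) (fun i j => g (φ i j))
    (fun i => by
      rw [Matrix.smul_mulVec, hg0, hh]
      funext j
      simp)
    (fun i => by
      rw [Matrix.vecMul_smul, hg1, hφ]
      funext j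
      simp)
    (fun i j => by
      have h5 : (fun l => g (φ i l)) ⬝ᵥ (fun l => g (h j l)) = g (φ i ⬝ᵥ h j) := by
        simp [dotProduct, map_sum]
      rw [h5, hφh]
      split_ifs <;> simp)
  have h5 := LinearMap.finrank_range_add_finrank_ker (opL L (v • D₀.map g))
  have h6 := LinearMap.finrank_range_add_finrank_ker (opT K D)
  have h7 : finrank L (Matrix (Fin n) (Fin n) (L ⊗[K] R)) =
      finrank K (Matrix (Fin n) (Fin n) R) := by
    rw [Module.finrank_matrix, Module.finrank_matrix, Module.finrank_baseChange]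
  rw [Module.finrank_baseChange] at h4
  rw [h7] at h5
  have hco : D.map (ιR : R →+* L ⊗[K] R) =
      D.map (Algebra.TensorProduct.includeRight : R →ₐ[K] L ⊗[K] R) := rfl
  rw [hco] at h3
  rw [← h3] at hle
  rw [hm, add_mul]
  omega

/-- the main estimate: general form -/
theorem main_general {K R : Type} [Field K] [CommRing R] [Algebra K R] [FiniteDimensional K R]
    (h2 : (2 : R) = 0) {n : ℕ} (l : List (R →+ R))
    (hθ : ∀ θ ∈ l, ∀ a b, θ (a * b) = θ a * b + a * θ b)
    (hθ2 : ∀ θ ∈ l, ∀ a b, θ a * θ b = 0)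
    (D : Matrix (Fin n) (Fin n) R) (hD : D * D = 0) (D₀ : Matrix (Fin n) (Fin n) K)
    (hD₀ : D₀ * D₀ = 0) (hit : D.map (iter l) = D₀.map (algebraMap K R)) :
    finrank K (LinearMap.ker (Matrix.mulVecLin D₀)) * finrank K R +
        finrank K (LinearMap.range (opT K D)) ≤
      finrank K (LinearMap.ker (opT K D)) +
        finrank K (LinearMap.range (Matrix.mulVecLin D₀)) * finrank K R :=
  main_general_aux (AlgebraicClosure K) h2 l hθ hθ2 D hD D₀ hD₀ hit

end Pool.Agent.KS6_22.TS
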